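import Pool.Agent.H95.CM.Targets

/-!
# Row C_INE of the board `cm4_modules`: a lattice and a form determine the field
-/

set_option autoImplicit false

open MeasureTheory Set Filter NumberField
open scoped Real nonZeroDivisors

namespace Pool.Agent.H21.CM4

open Pool.Agent.H65.CM4
open Pool.Agent.H95.CM
open Pool.Agent.H31.CN (IsLf)
open Pool.Agent.H61.FM (CC pv)

section Quad

variable {F L : Type} [Field F] [Field L] [Algebra F L]

/-- the equation of degree two and the norm of `z + 1` -/
theorem quad_rel (h2 : Module.finrank F L = 2) (z : L) :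
    z ^ 2 = Algebra.trace F L z • z - algebraMap F L (Algebra.norm F z) ∧
    Algebra.norm F (z + 1) = Algebra.norm F z + Algebra.trace F L z + 1 := by
  haveI : FiniteDimensional F L := Module.finite_of_finrank_pos (by rw [h2]; norm_num)
  let b : Module.Basis (Fin 2) F L := (Module.finBasisOfFinrankEq F L h2)
  let M := Algebra.leftMulMatrix b z
  have hn : Algebra.norm F z = M.det := Algebra.norm_eq_matrix_det b z
  have ht : Algebra.trace F L z = M.trace := Algebra.trace_eq_matrix_trace b z
  refine ⟨?_, ?_⟩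
  · have h1 : M ^ 2 = M.trace • M - algebraMap F (Matrix (Fin 2) (Fin 2) F) M.det := by
      ext i j
      rw [pow_two, Matrix.trace_fin_two, Matrix.det_fin_two]
      fin_cases i <;> fin_cases j <;>
        simp [Matrix.mul_apply, Fin.sum_univ_two, Matrix.algebraMap_matrix_apply] <;> ring
    apply Algebra.leftMulMatrix_injective b
    rw [map_pow, map_sub, map_smul, AlgHom.commutes, hn, ht]
    exact h1
  · have h1 : Algebra.norm F (z + 1) = (M + 1).det := by
      rw [Algebra.norm_eq_matrix_det b, map_add, map_one]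
    rw [h1, hn, ht, Matrix.det_fin_two, Matrix.det_fin_two, Matrix.trace_fin_two]
    simp
    ring

variable {L' : Type} [Field L'] [Algebra F L'] [CharZero F]

/-- a linear isomorphism which multiplies the norms by a constant is an isomorphism of fields times
a constant -/
theorem sim_iso (h2 : Module.finrank F L = 2) (h2' : Module.finrank F L' = 2) (T : L ≃ₗ[F] L')
    (ρ : F) (hT : ∀ z, Algebra.norm F (T z) = ρ * Algebra.norm F z) :
    ∃ (e : L ≃ₐ[F] L') (t : L'), t ≠ 0 ∧ ∀ z, T z = t * e z := by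
  haveI : FiniteDimensional F L := Module.finite_of_finrank_pos (by rw [h2]; norm_num)
  haveI : FiniteDimensional F L' := Module.finite_of_finrank_pos (by rw [h2']; norm_num)
  have ht : T 1 ≠ 0 := by
    intro h
    exact one_ne_zero ((map_eq_zero_iff T T.injective).1 h)
  obtain ⟨t, htd⟩ : ∃ t, t = T 1 := ⟨_, rfl⟩
  rw [← htd] at ht
  have htn : Algebra.norm F t = ρ := by
    rw [htd, hT, map_one, mul_one]
  have htn0 : Algebra.norm F t ≠ 0 := (Algebra.norm_ne_zero_iff (R := F)).2 ht
  have hinv : Algebra.norm F t⁻¹ = ρ⁻¹ := by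
    have h1 : Algebra.norm F t * Algebra.norm F t⁻¹ = 1 := by
      rw [← map_mul, mul_inv_cancel₀ ht, map_one]
    rw [htn] at h1
    exact eq_inv_of_mul_eq_one_right h1
  let e0 : L ≃ₗ[F] L' := T.trans
    (LinearEquiv.ofBijective (Algebra.lmul F L' t⁻¹)
      ⟨mul_right_injective₀ (inv_ne_zero ht), fun y => ⟨t * y, by
        change t⁻¹ * (t * y) = y
        rw [inv_mul_cancel_left₀ ht]⟩⟩)
  have he0 : ∀ z, e0 z = t⁻¹ * T z := fun z => rfl
  have he1 : e0 1 = 1 := by rw [he0, ← htd, inv_mul_cancel₀ ht]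
  have hn : ∀ z, Algebra.norm F (e0 z) = Algebra.norm F z := by
    intro z
    rw [he0, map_mul, hinv, hT, ← mul_assoc, inv_mul_cancel₀ (by rw [← htn]; exact htn0), one_mul]
  have htr : ∀ z, Algebra.trace F L' (e0 z) = Algebra.trace F L z := by
    intro z
    have h1 := (quad_rel h2 z).2
    have h3 := (quad_rel h2' (e0 z)).2
    have h4 : e0 z + 1 = e0 (z + 1) := by rw [map_add, he1]
    rw [h4, hn, hn, h1] at h3
    linear_combination -h3
  have hsq : ∀ z, e0 (z ^ 2) = e0 z ^ 2 := by
    intro z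
    rw [(quad_rel h2 z).1, (quad_rel h2' (e0 z)).1, htr, hn, map_sub, map_smul,
      Algebra.algebraMap_eq_smul_one, map_smul, he1, Algebra.algebraMap_eq_smul_one]
  have hmul : ∀ z w, e0 (z * w) = e0 z * e0 w := by
    intro z w
    have h1 : (2 : F) • (z * w) = (z + w) ^ 2 - z ^ 2 - w ^ 2 := by
      rw [two_smul]; ring
    have h3 : (2 : F) • e0 (z * w) = (2 : F) • (e0 z * e0 w) := by
      rw [← map_smul, h1, map_sub, map_sub, hsq, hsq, hsq, map_add, two_smul]
      ring
    exact smul_right_injective _ (two_ne_zero (α := F)) h3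
  refine ⟨AlgEquiv.ofLinearEquiv e0 he1 hmul, t, ht, fun z => ?_⟩
  change T z = t * (t⁻¹ * T z)
  rw [mul_inv_cancel_left₀ ht]

end Quad

section Lin

variable {k K : Type} [Field k] [NumberField k] [Field K] [NumberField K] [Algebra k K]

/-- the linear map of the pair `α`, `β` -/
noncomputable def lK (α β : K) : (k × k) →ₗ[k] K where
  toFun w := w.1 • α + w.2 • β
  map_add' := by
    intro v w
    simp only [Prod.fst_add, Prod.snd_add, add_smul]
    abel
  map_smul' := by
    intro c v
    simp only [Prod.smul_fst, Prod.smul_snd, smul_eq_mul, mul_smul, smul_add, RingHom.id_apply]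

theorem lK_lin (α β : K) (u : V2 k) : lK α β ((u.1 : k), (u.2 : k)) = lin α β u := by
  change (u.1 : k) • α + (u.2 : k) • β = _
  rw [Algebra.smul_def, Algebra.smul_def]
  rfl

/-- common denominators -/
theorem clear (w : k × k) : ∃ (d : 𝓞 k) (u : V2 k), d ≠ 0 ∧
    (d : k) • w = ((u.1 : k), (u.2 : k)) := by
  obtain ⟨x, d, hd, hxd⟩ := IsFractionRing.div_surjective (𝓞 k) w.1
  obtain ⟨x', d', hd', hxd'⟩ := IsFractionRing.div_surjective (𝓞 k) w.2
  have h1 : d ≠ 0 := nonZeroDivisors.ne_zero hd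
  have h2 : d' ≠ 0 := nonZeroDivisors.ne_zero hd'
  have h1' : (algebraMap (𝓞 k) k) d ≠ 0 := by
    rw [Ne, FaithfulSMul.algebraMap_eq_zero_iff]; exact h1
  have h2' : (algebraMap (𝓞 k) k) d' ≠ 0 := by
    rw [Ne, FaithfulSMul.algebraMap_eq_zero_iff]; exact h2
  refine ⟨d * d', (x * d', x' * d), mul_ne_zero h1 h2, Prod.ext ?_ ?_⟩
  · change algebraMap (𝓞 k) k (d * d') * w.1 = algebraMap (𝓞 k) k (x * d')
    rw [← hxd, map_mul, map_mul]
    field_simp
  · change algebraMap (𝓞 k) k (d * d') * w.2 = algebraMap (𝓞 k) k (x' * d)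
    rw [← hxd', map_mul, map_mul]
    field_simp

theorem lK_inj (α β : K) (h : ∀ u : V2 k, lin α β u = 0 → u = 0) :
    Function.Injective (lK (k := k) α β) := by
  rw [injective_iff_map_eq_zero]
  intro w hw
  obtain ⟨d, u, hd, hu⟩ := clear w
  have h1 : lin α β u = 0 := by
    rw [← lK_lin, ← hu, map_smul, hw, smul_zero]
  have h2 := h u h1
  rw [h2] at hu
  have hd' : (d : k) ≠ 0 := by
    rw [Ne, RingOfIntegers.coe_eq_zero_iff]; exact hd
  have h3 : (d : k) • w = 0 := by
    rw [hu]
    simp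
  exact (smul_eq_zero.1 h3).resolve_left hd'

/-- the norms of the combinations -/
theorem lK_norm [Algebra.IsQuadraticExtension k K] (α β : K) (μ : k) (Q : QF k)
    (h : ∀ u : V2 k, Algebra.norm k (lin α β u) = μ * ((val Q u : 𝓞 k) : k)) (d : 𝓞 k) (w : k × k)
    (u : V2 k) (hu : (d : k) • w = ((u.1 : k), (u.2 : k))) :
    (d : k) ^ 2 * Algebra.norm k (lK α β w) = μ * ((val Q u : 𝓞 k) : k) := by
  have h1 : lin α β u = algebraMap k K (d : k) * lK α β w := by
    rw [← lK_lin, ← hu, map_smul, Algebra.smul_def]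
  rw [← h u, h1, map_mul, Algebra.norm_algebraMap,
    Algebra.IsQuadraticExtension.finrank_eq_two k K]

end Lin

theorem pf_INE (hNTP : T_NTP) : T_INE := by
  intro k K K' _ _ _ _ _ _ _ _ _ _ _ _ _ b b' I I' α β α' β' μ μ' M Q hb hb' hI hI' hO hO'
  have h2 : Module.finrank k K = 2 := Algebra.IsQuadraticExtension.finrank_eq_two k K
  have h2' : Module.finrank k K' = 2 := Algebra.IsQuadraticExtension.finrank_eq_two k K'
  haveI : FiniteDimensional k K := Module.finite_of_finrank_pos (by rw [h2]; norm_num)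
  haveI : FiniteDimensional k K' := Module.finite_of_finrank_pos (by rw [h2']; norm_num)
  have hp : Module.finrank k (k × k) = 2 := by
    rw [Module.finrank_prod, Module.finrank_self]
  let f := LinearMap.linearEquivOfInjective (lK (k := k) α β) (lK_inj α β hO.inj)
    (by rw [hp, h2])
  let f' := LinearMap.linearEquivOfInjective (lK (k := k) α' β') (lK_inj α' β' hO'.inj)
    (by rw [hp, h2'])
  have hf : ∀ w, f w = lK α β w := fun w => rfl
  have hf' : ∀ w, f' w = lK α' β' w := fun w => rfl
  obtain ⟨v⟩ : Nonempty (Pl k) := inferInstance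
  have hμ : μ ≠ 0 := by
    intro h
    have h1 := hO.pos v
    rw [h, map_zero] at h1
    exact lt_irrefl _ h1
  obtain ⟨e, t, ht, he⟩ := sim_iso h2 h2' (f.symm.trans f') (μ' / μ) (by
    intro z
    obtain ⟨w, rfl⟩ := f.surjective z
    obtain ⟨d, u, hd, hu⟩ := clear w
    have hd' : (d : k) ≠ 0 := by
      rw [Ne, RingOfIntegers.coe_eq_zero_iff]; exact hd
    have e1 := lK_norm α β μ Q hO.nrm d w u hu
    have e2 := lK_norm α' β' μ' Q hO'.nrm d w u hu
    have e3 : (f.symm.trans f') (f w) = lK α' β' w := by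
      rw [LinearEquiv.trans_apply, LinearEquiv.symm_apply_apply, hf']
    rw [e3, hf]
    apply mul_left_cancel₀ (pow_ne_zero 2 hd')
    rw [e2]
    have e4 : (d : k) ^ 2 * (μ' / μ * (Algebra.norm k) ((lK α β) w)) =
        μ' / μ * ((d : k) ^ 2 * (Algebra.norm k) ((lK α β) w)) := by ring
    rw [e4, e1, ← mul_assoc, div_mul_cancel₀ _ hμ])
  refine ⟨e, t, ht, fun u => ?_⟩
  rw [← lK_lin, ← lK_lin, ← hf, ← hf', ← he, LinearEquiv.trans_apply,
    LinearEquiv.symm_apply_apply]

end Pool.Agent.H21.CM4
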