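import Pool.Agent.H95.CM.Targets

/-!
# Row C_LF1 of the board `cm4_modules`: the twisted `L`-function in terms of the forms
-/

set_option autoImplicit false

open MeasureTheory Set Filter NumberField
open scoped Real nonZeroDivisors

namespace Pool.Agent.H21.CM4

open Pool.Agent.H65.CM4
open Pool.Agent.H95.CM
open Pool.Agent.H31.CN (IsLf)
open Pool.Agent.H61.FM (CC pv)

theorem cpow_quot (m D : ℝ) (hm : 0 < m) (hD : 0 < D) (s : ℂ) :
    ((m / Real.sqrt D : ℝ) : ℂ) ^ (-s) = (m : ℂ) ^ (-s) * (D : ℂ) ^ (s / 2) := by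
  have hs : 0 < Real.sqrt D := Real.sqrt_pos.2 hD
  have hq : 0 < m / Real.sqrt D := by positivity
  have h1 : ((m / Real.sqrt D : ℝ) : ℂ) ≠ 0 := by exact_mod_cast hq.ne'
  have h2 : (m : ℂ) ≠ 0 := by exact_mod_cast hm.ne'
  have h3 : (D : ℂ) ≠ 0 := by exact_mod_cast hD.ne'
  rw [Complex.cpow_def_of_ne_zero h1, Complex.cpow_def_of_ne_zero h2,
    Complex.cpow_def_of_ne_zero h3, ← Complex.exp_add, ← Complex.ofReal_log hq.le,
    Real.log_div hm.ne' hs.ne', Real.log_sqrt hD.le, Complex.ofReal_sub, Complex.ofReal_div,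
    Complex.ofReal_log hm.le, Complex.ofReal_log hD.le]
  congr 1
  push_cast
  ring

theorem Dr_pos (k K : Type) [Field k] [NumberField k] [Field K] [NumberField K] :
    0 < Dr k K := by
  unfold Dr dk
  have h1 : (discr K : ℝ) ≠ 0 := by exact_mod_cast discr_ne_zero K
  have h2 : 0 < ((discr k).natAbs : ℝ) := by
    exact_mod_cast Int.natAbs_pos.2 (discr_ne_zero k)
  positivity

open Classical in
theorem pf_LF1 (hEZA : T_EZA) (hTWS : T_TWS) (hLIN : T_LIN) (hLSU : T_LSU) (hINJ : T_INJ)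
    (hMEM : T_MEM) (hIXL : T_IXL) (hQNV : T_QNV) (hCVF : T_CVF) : T_LF1 := by
  intro k K _ _ _ _ _ _ _ _ b B y R ψ F hb hF I hI hIsq hIb s hs hs2
  obtain ⟨D, hDr⟩ : ∃ D, D = Dr k K := ⟨_, rfl⟩
  have hD : 0 < D := by rw [hDr]; exact Dr_pos k K
  rw [← hDr]
  have hI0 : ∀ c, (R.I c : Ideal (𝓞 K)) ≠ ⊥ := fun c => nonZeroDivisors.coe_ne_zero (R.I c)
  have hix := fun c => hIXL k b (R.M c) I hb (R.ob c).bM hI hIb
  have habs : Ideal.absNorm I ≠ 0 := fun h => hI (Ideal.absNorm_eq_zero_iff.1 h)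
  -- the lattice of an ideal of relative norm `I`
  have hlat : ∀ (c : ClassGroup (𝓞 K)), ∀ P ∈ Nr k K I, ∃ L ∈ Ls I, Dv I L (R.Q c) ∧
      lt (k := k) (R.α c) (R.β c) ((P : Ideal (𝓞 K)) * R.I c) = R.M c ⊓ L := by
    intro c P hP
    rw [mem_Nr] at hP
    have h1 := hLIN k K b (R.I c) (R.α c) (R.β c) (R.μ c) (R.M c) (R.Q c) hb (hI0 c) (R.ob c) P
      (nonZeroDivisors.coe_ne_zero P) (by rw [hP]; exact hIsq) (by rw [hP]; exact hIb)
    rw [hP] at h1
    exact h1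
  -- step 1
  have step1 : ∀ c, ∑ L ∈ (Ls I).filter (fun L => Dv I L (R.Q c)),
      Ez s (R.M c ⊓ L) (zx (R.Q c)) (zy (R.Q c)) = ∑ P ∈ Nr k K I,
      Ez s (lt (k := k) (R.α c) (R.β c) ((P : Ideal (𝓞 K)) * R.I c)) (zx (R.Q c)) (zy (R.Q c)) := by
    intro c
    have h1 : ∀ L : La k, ∃ P : (Ideal (𝓞 K))⁰, L ∈ (Ls I).filter (fun L => Dv I L (R.Q c)) →
        P ∈ Nr k K I ∧ lt (k := k) (R.α c) (R.β c) ((P : Ideal (𝓞 K)) * R.I c) = R.M c ⊓ L := by
      intro L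
      by_cases hL : L ∈ (Ls I).filter (fun L => Dv I L (R.Q c))
      · rw [Finset.mem_filter] at hL
        obtain ⟨P, hP0, hPn, hPL⟩ := hLSU k K b (R.I c) (R.α c) (R.β c) (R.μ c) (R.M c) (R.Q c) hb
          (hI0 c) (R.ob c) I hI hIb L hL.1 hL.2
        exact ⟨⟨P, mem_nonZeroDivisors_of_ne_zero hP0⟩, fun _ => ⟨(mem_Nr k).2 hPn, hPL⟩⟩
      · exact ⟨1, fun h => absurd h hL⟩
    choose g hg using h1
    refine Finset.sum_bij (fun L _ => g L) ?_ ?_ ?_ ?_
    · intro L hL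
      exact (hg L hL).1
    · intro L hL L' hL' he
      have e1 := (hg L hL).2
      have e2 := (hg L' hL').2
      rw [he] at e1
      exact (hix c).2.2.2 L (Finset.mem_filter.1 hL).1 L' (Finset.mem_filter.1 hL').1
        (e1.symm.trans e2)
    · intro P hP
      obtain ⟨L, hL, hLD, hLP⟩ := hlat c P hP
      have hLf : L ∈ (Ls I).filter (fun L => Dv I L (R.Q c)) := Finset.mem_filter.2 ⟨hL, hLD⟩
      refine ⟨L, hLf, ?_⟩
      have e1 := (hg L hLf).2
      rw [← hLP] at e1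
      exact Subtype.ext (hINJ k K b (R.I c) (R.α c) (R.β c) (R.μ c) (R.M c) (R.Q c) hb
        (hI0 c) (R.ob c) _ _ e1)
    · intro L hL
      rw [(hg L hL).2]
  -- step 2
  have step2 : ∀ (c : ClassGroup (𝓞 K)) (P : (Ideal (𝓞 K))⁰), ∃ a : ℂ, P ∈ Nr k K I →
      HasSum (fun J : (Ideal (𝓞 K))⁰ => if ClassGroup.mk0 J = (c * ClassGroup.mk0 P)⁻¹ then
        ((nm (J : Ideal (𝓞 K)) / Real.sqrt D : ℝ) : ℂ) ^ (-s) else 0) (a / un k K) ∧
      Ez s (lt (k := k) (R.α c) (R.β c) ((P : Ideal (𝓞 K)) * R.I c)) (zx (R.Q c)) (zy (R.Q c)) =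
        gG s ^ dg k * a := by
    intro c P
    by_cases hP : P ∈ Nr k K I
    · obtain ⟨L, hL, -, hLP⟩ := hlat c P hP
      have hPn : Ideal.absNorm (P : Ideal (𝓞 K)) = Ideal.absNorm I := by
        rw [mem_Nr] at hP
        rw [← hP, Ideal.absNorm_relNorm]
      have hixP : ix (lt (k := k) (R.α c) (R.β c) ((P : Ideal (𝓞 K)) * R.I c)) =
          ix (R.M c) * Ideal.absNorm I := by
        rw [hLP]
        exact (hix c).2.2.1 L hL
      have hpos := (hCVF k K b (R.I c) (R.α c) (R.β c) (R.μ c) (R.M c) (R.Q c) hb (hI0 c)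
        (R.ob c)).1
      have hq := fun u => hQNV k (R.Q c) u hpos
      obtain ⟨-, h3⟩ := hEZA k (lt (k := k) (R.α c) (R.β c) ((P : Ideal (𝓞 K)) * R.I c)) (zx (R.Q c))
        (zy (R.Q c)) (by rw [hixP]; exact mul_ne_zero (hix c).1 habs) (hq 0).1
      obtain ⟨a, ha, haE⟩ := h3 s hs hs2
      refine ⟨a, fun _ => ⟨?_, haE⟩⟩
      have h4 := hTWS k K b (R.I c) P (R.α c) (R.β c) (R.μ c) (R.M c) (R.Q c) hb (R.ob c)
        (fun r => ((r / Real.sqrt D : ℝ) : ℂ) ^ (-s)) a (by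
          refine ha.congr_fun ?_
          intro v
          split_ifs with h5
          · rw [(hq v).2.1, hixP]
            congr 1
            rw [← hDr]
            have hsD : Real.sqrt D ≠ 0 := (Real.sqrt_pos.2 hD).ne'
            unfold nm
            rw [hPn, mul_div_assoc, mul_div_cancel_left₀ _ hsD]
            push_cast
            rfl
          · rfl)
      rw [R.cl c] at h4
      exact h4
    · exact ⟨0, fun h => absurd h hP⟩
  choose a ha using step2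
  -- step 3
  have step3 : ∀ P ∈ Nr k K I, pv ψ P * ((D : ℂ) ^ (s / 2) * F s) =
      ∑ c, (((ψ c)⁻¹ : ℂˣ) : ℂ) * (a c P / un k K) := by
    intro P hP
    have h1 : HasSum (fun J : (Ideal (𝓞 K))⁰ => ∑ c, (((ψ c)⁻¹ : ℂˣ) : ℂ) *
        (if ClassGroup.mk0 J = (c * ClassGroup.mk0 P)⁻¹ then
          ((nm (J : Ideal (𝓞 K)) / Real.sqrt D : ℝ) : ℂ) ^ (-s) else 0))
        (∑ c, (((ψ c)⁻¹ : ℂˣ) : ℂ) * (a c P / un k K)) :=
      hasSum_sum fun c _ => ((ha c P hP).1).mul_left _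
    have h2 := (hF.2 s hs).mul_left (pv ψ P * (D : ℂ) ^ (s / 2))
    have h3 : (fun J : (Ideal (𝓞 K))⁰ => ∑ c, (((ψ c)⁻¹ : ℂˣ) : ℂ) *
        (if ClassGroup.mk0 J = (c * ClassGroup.mk0 P)⁻¹ then
          ((nm (J : Ideal (𝓞 K)) / Real.sqrt D : ℝ) : ℂ) ^ (-s) else 0)) =
        fun J => pv ψ P * (D : ℂ) ^ (s / 2) * (((ψ (ClassGroup.mk0 J) : ℂˣ) : ℂ) *
          (Ideal.absNorm (J : Ideal (𝓞 K)) : ℂ) ^ (-s)) := by
      funext J
      have hJ : 0 < nm (J : Ideal (𝓞 K)) := by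
        unfold nm
        exact_mod_cast Ideal.absNorm_pos_of_nonZeroDivisors J
      rw [Finset.sum_eq_single ((ClassGroup.mk0 J * ClassGroup.mk0 P)⁻¹)]
      · have e1 : ClassGroup.mk0 J = ((ClassGroup.mk0 J * ClassGroup.mk0 P)⁻¹ *
            ClassGroup.mk0 P)⁻¹ := by
          rw [mul_inv_rev, inv_inv, mul_comm (ClassGroup.mk0 J), inv_mul_cancel_left]
        rw [if_pos e1, cpow_quot _ _ hJ hD, map_inv, inv_inv, map_mul]
        unfold pv nm
        push_cast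
        ring
      · intro c _ hc
        rw [if_neg, mul_zero]
        intro h4
        apply hc
        rw [h4, mul_inv, inv_inv]
        group
      · intro h4
        exact absurd (Finset.mem_univ _) h4
    rw [h3] at h1
    rw [h1.unique h2]
    ring
  have step4 : lm k ψ I * (gG s ^ dg k * (D : ℂ) ^ (s / 2) * F s) =
      ∑ P ∈ Nr k K I, gG s ^ dg k * (pv ψ P * ((D : ℂ) ^ (s / 2) * F s)) := by
    unfold lm
    rw [Finset.sum_mul]
    exact Finset.sum_congr rfl fun P _ => by ring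
  rw [step4, Finset.mul_sum]
  calc ∑ P ∈ Nr k K I, gG s ^ dg k * (pv ψ P * ((D : ℂ) ^ (s / 2) * F s))
      = ∑ P ∈ Nr k K I, ∑ c, gG s ^ dg k * ((((ψ c)⁻¹ : ℂˣ) : ℂ) * (a c P / un k K)) := by
        refine Finset.sum_congr rfl fun P hP => ?_
        rw [step3 P hP, Finset.mul_sum]
    _ = ∑ c, ∑ P ∈ Nr k K I, gG s ^ dg k * ((((ψ c)⁻¹ : ℂˣ) : ℂ) * (a c P / un k K)) :=
        Finset.sum_comm
    _ = _ := by
        refine Finset.sum_congr rfl fun c _ => ?_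
        rw [step1 c, Finset.mul_sum, Finset.mul_sum]
        refine Finset.sum_congr rfl fun P hP => ?_
        rw [(ha c P hP).2, div_eq_mul_inv]
        ring

end Pool.Agent.H21.CM4
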