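import Pool.Agent.H95.CM.Targets

/-!
# Row C_LF2 of the board `cm4_modules`: the twisted `L`-function in terms of the forms, `Re s > 0`
-/

set_option autoImplicit false

open MeasureTheory Set Filter NumberField
open scoped Real nonZeroDivisors

namespace Pool.Agent.H21.CM4

open Pool.Agent.H65.CM4
open Pool.Agent.H95.CM
open Pool.Agent.H31.CN (IsLf)
open Pool.Agent.H61.FM (CC pv)

/-- the punctured strip -/
theorem strip_pre : IsPreconnected {s : ℂ | (0 < s.re ∧ s.re < 2) ∧ s ≠ 1} := by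
  have hl := convex_halfSpace_re_gt (0 : ℝ)
  have hr := convex_halfSpace_re_lt (2 : ℝ)
  have c1 : IsPreconnected {s : ℂ | (0 < s.re ∧ s.re < 2) ∧ 0 < s.im} :=
    ((hl.inter hr).inter (convex_halfSpace_im_gt (0 : ℝ))).isPreconnected
  have c2 : IsPreconnected {s : ℂ | (0 < s.re ∧ s.re < 2) ∧ s.im < 0} :=
    ((hl.inter hr).inter (convex_halfSpace_im_lt (0 : ℝ))).isPreconnected
  have c3 : IsPreconnected {s : ℂ | (0 < s.re ∧ s.re < 2) ∧ s.re < 1} :=
    ((hl.inter hr).inter (convex_halfSpace_re_lt (1 : ℝ))).isPreconnected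
  have c4 : IsPreconnected {s : ℂ | (0 < s.re ∧ s.re < 2) ∧ 1 < s.re} :=
    ((hl.inter hr).inter (convex_halfSpace_re_gt (1 : ℝ))).isPreconnected
  have d1 := IsPreconnected.union (⟨3 / 2, 1⟩ : ℂ) (by simp; norm_num) (by simp; norm_num) c1 c4
  have d2 := IsPreconnected.union (⟨3 / 2, -1⟩ : ℂ) (by
    right
    simp
    norm_num) (by simp; norm_num) d1 c2
  have d3 := IsPreconnected.union (⟨1 / 2, 1⟩ : ℂ) (by
    left; left
    simp
    norm_num) (by simp; norm_num) d2 c3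
  have he : {s : ℂ | (0 < s.re ∧ s.re < 2) ∧ s ≠ 1} =
      {s : ℂ | (0 < s.re ∧ s.re < 2) ∧ 0 < s.im} ∪ {s : ℂ | (0 < s.re ∧ s.re < 2) ∧ 1 < s.re} ∪
      {s : ℂ | (0 < s.re ∧ s.re < 2) ∧ s.im < 0} ∪
      {s : ℂ | (0 < s.re ∧ s.re < 2) ∧ s.re < 1} := by
    ext s
    simp only [Set.mem_setOf_eq, Set.mem_union]
    constructor
    · rintro ⟨h, h1⟩
      rcases lt_trichotomy s.im 0 with hi | hi | hi
      · exact Or.inl (Or.inr ⟨h, hi⟩)
      · rcases lt_trichotomy s.re 1 with hr' | hr' | hr'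
        · exact Or.inr ⟨h, hr'⟩
        · exact absurd (Complex.ext hr' hi) h1
        · exact Or.inl (Or.inl (Or.inr ⟨h, hr'⟩))
      · exact Or.inl (Or.inl (Or.inl ⟨h, hi⟩))
    · rintro (((⟨h, h1⟩ | ⟨h, h1⟩) | ⟨h, h1⟩) | ⟨h, h1⟩) <;> refine ⟨h, ?_⟩ <;> rintro rfl <;>
        simp at h1
  rw [he]
  exact d3

theorem gG_diff (s : ℂ) (hs : 0 < s.re) : DifferentiableAt ℂ gG s := by
  have h1 : DifferentiableAt ℂ Complex.Gamma s := by
    apply Complex.differentiableAt_Gamma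
    intro m hm
    rw [hm] at hs
    simp at hs
    have := Nat.cast_nonneg (α := ℝ) m
    linarith
  have h2 : (2 * (π : ℂ)) ≠ 0 := by
    have := Real.pi_pos
    norm_num
  have h3 : DifferentiableAt ℂ (fun s : ℂ => (2 * (π : ℂ)) ^ (-s)) s :=
    (differentiableAt_id.neg).const_cpow (Or.inl h2)
  unfold gG
  exact ((differentiableAt_id.mul (differentiableAt_id.sub_const 1)).mul h1).mul h3

open Classical in
theorem pf_LF2 (hLF1 : T_LF1) (hEZA : T_EZA) (hMEM : T_MEM) (hIXL : T_IXL) (hQNV : T_QNV)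
    (hCVF : T_CVF) : T_LF2 := by
  intro k K _ _ _ _ _ _ _ _ b B y R ψ F hb hF I hI hIsq hIb s hs0 hs2 hs1
  have hD : (Dr k K : ℂ) ≠ 0 := by
    have h1 : (discr K : ℝ) ≠ 0 := by exact_mod_cast discr_ne_zero K
    have h2 : ((discr k).natAbs : ℝ) ≠ 0 := by
      exact_mod_cast Int.natAbs_ne_zero.2 (discr_ne_zero k)
    have h3 : Dr k K ≠ 0 := by
      unfold Dr dk
      exact div_ne_zero (abs_ne_zero.2 h1) (pow_ne_zero 2 h2)
    exact_mod_cast h3
  have habs : Ideal.absNorm I ≠ 0 := fun h => hI (Ideal.absNorm_eq_zero_iff.1 h)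
  have hI0 : ∀ c, (R.I c : Ideal (𝓞 K)) ≠ ⊥ := fun c => nonZeroDivisors.coe_ne_zero (R.I c)
  set A : ℂ → ℂ := fun s => lm k ψ I * (gG s ^ dg k * (Dr k K : ℂ) ^ (s / 2) * F s) with hA
  set W : ℂ → ℂ := fun s => (un k K : ℂ)⁻¹ * ∑ c, (((ψ c)⁻¹ : ℂˣ) : ℂ) *
    ∑ L ∈ (Ls I).filter (fun L => Dv I L (R.Q c)), Ez s (R.M c ⊓ L) (zx (R.Q c)) (zy (R.Q c))
    with hW
  change A s = W s
  have hop : IsOpen {s : ℂ | (0 < s.re ∧ s.re < 2) ∧ s ≠ 1} := by
    refine IsOpen.inter (IsOpen.inter ?_ ?_) ?_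
    · exact isOpen_lt continuous_const Complex.continuous_re
    · exact isOpen_lt Complex.continuous_re continuous_const
    · exact isOpen_compl_singleton
  have hAd : DifferentiableOn ℂ A {s : ℂ | (0 < s.re ∧ s.re < 2) ∧ s ≠ 1} := by
    apply DifferentiableOn.const_mul
    apply DifferentiableOn.mul
    · apply DifferentiableOn.mul
      · intro z hz
        exact ((gG_diff z hz.1.1).pow _).differentiableWithinAt
      · intro z hz
        exact ((differentiableAt_id.div_const 2).const_cpow (Or.inl hD)).differentiableWithinAt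
    · exact hF.1.mono fun z hz => hz.2
  have hWd : DifferentiableOn ℂ W {s : ℂ | (0 < s.re ∧ s.re < 2) ∧ s ≠ 1} := by
    apply DifferentiableOn.const_mul
    apply DifferentiableOn.fun_sum
    intro c _
    apply DifferentiableOn.const_mul
    apply DifferentiableOn.fun_sum
    intro L hL
    have hix := hIXL k b (R.M c) I hb (R.ob c).bM hI hIb
    have hpos := (hCVF k K b (R.I c) (R.α c) (R.β c) (R.μ c) (R.M c) (R.Q c) hb (hI0 c)
        (R.ob c)).1
    refine ((hEZA k (R.M c ⊓ L) (zx (R.Q c)) (zy (R.Q c)) ?_ (hQNV k (R.Q c) 0 hpos).1).1).mono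
      fun z hz => hz.1
    rw [hix.2.2.1 L (Finset.mem_filter.1 hL).1]
    exact mul_ne_zero hix.1 habs
  have hA' := hAd.analyticOnNhd hop
  have hW' := hWd.analyticOnNhd hop
  have h32 : ((⟨3 / 2, 0⟩ : ℂ)) ∈ {s : ℂ | (0 < s.re ∧ s.re < 2) ∧ s ≠ 1} := by
    refine ⟨⟨?_, ?_⟩, ?_⟩
    · norm_num
    · norm_num
    · intro h
      have := congrArg Complex.re h
      norm_num at this
  have he : A =ᶠ[nhds (⟨3 / 2, 0⟩ : ℂ)] W := by
    have ho : IsOpen {s : ℂ | 1 < s.re ∧ s.re < 2} :=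
      (isOpen_lt continuous_const Complex.continuous_re).inter
        (isOpen_lt Complex.continuous_re continuous_const)
    have hm : (⟨3 / 2, 0⟩ : ℂ) ∈ {s : ℂ | 1 < s.re ∧ s.re < 2} := by
      constructor
      · norm_num
      · norm_num
    filter_upwards [ho.mem_nhds hm] with z hz
    exact hLF1 k K b B y R ψ F hb hF I hI hIsq hIb z hz.1 hz.2
  exact hA'.eqOn_of_preconnected_of_eventuallyEq hW' strip_pre h32 he ⟨⟨hs0, hs2⟩, hs1⟩

end Pool.Agent.H21.CM4
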