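import Pool.Agent.H95.CM.Targets

/-!
# Row C_TTO of the board `cm4_modules`: a lattice and a form determine the class up to conjugation
-/

set_option autoImplicit false

open MeasureTheory Set Filter NumberField
open scoped Real nonZeroDivisors

namespace Pool.Agent.H21.CM4

open Pool.Agent.H65.CM4
open Pool.Agent.H95.CM
open Pool.Agent.H31.CN (IsLf)
open Pool.Agent.H61.FM (CC pv)

section Conj

variable {k K : Type} [Field k] [NumberField k] [Field K] [NumberField K] [Algebra k K]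

/-- the conjugate of an ideal -/
noncomputable def cj (I : (Ideal (𝓞 K))⁰) (e : K ≃ₐ[k] K) : (Ideal (𝓞 K))⁰ :=
  ⟨Ideal.map (RingOfIntegers.mapRingEquiv e.toRingEquiv).toRingHom (I : Ideal (𝓞 K)), by
    apply mem_nonZeroDivisors_of_ne_zero
    intro h
    have h1 : Ideal.map (RingOfIntegers.mapRingEquiv e.toRingEquiv).toRingHom
        (I : Ideal (𝓞 K)) = ⊥ := h
    rw [Ideal.map_eq_bot_iff_of_injective] at h1
    · exact nonZeroDivisors.coe_ne_zero I h1
    · exact (RingOfIntegers.mapRingEquiv e.toRingEquiv).injective⟩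

theorem mem_cj (I : (Ideal (𝓞 K))⁰) (e : K ≃ₐ[k] K) (w : 𝓞 K) :
    w ∈ (cj I e : Ideal (𝓞 K)) ↔ ∃ y ∈ (I : Ideal (𝓞 K)), e (y : K) = (w : K) := by
  change w ∈ Ideal.map (RingOfIntegers.mapRingEquiv e.toRingEquiv).toRingHom
    (I : Ideal (𝓞 K)) ↔ _
  rw [Ideal.mem_map_iff_of_surjective (RingOfIntegers.mapRingEquiv e.toRingEquiv).toRingHom
    (RingOfIntegers.mapRingEquiv e.toRingEquiv).surjective]
  constructor
  · rintro ⟨y, hy, h⟩
    exact ⟨y, hy, by rw [← h]; rfl⟩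
  · rintro ⟨y, hy, h⟩
    exact ⟨y, hy, RingOfIntegers.ext h⟩

end Conj

theorem pf_TTO (hINE : T_INE) : T_TTO := by
  intro k K _ _ _ _ _ _ _ _ b B y R c hb
  have h2 : Module.finrank k K = 2 := Algebra.IsQuadraticExtension.finrank_eq_two k K
  have : FiniteDimensional k K := Module.finite_of_finrank_pos (by rw [h2]; norm_num)
  have hI0 : ∀ c, (R.I c : Ideal (𝓞 K)) ≠ ⊥ := fun c => nonZeroDivisors.coe_ne_zero (R.I c)
  have key : {c' | R.M c' = R.M c ∧ R.Q c' = R.Q c} ⊆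
      (fun e : K ≃ₐ[k] K => ClassGroup.mk0 (cj (R.I c) e)) '' Set.univ := by
    rintro c' ⟨hM, hQ⟩
    have hO := R.ob c
    have hO' := R.ob c'
    obtain ⟨e, t, ht, he⟩ := hINE k K K b b (R.I c) (R.I c') (R.α c) (R.β c) (R.α c') (R.β c')
      (R.μ c) (R.μ c') (R.M c) (R.Q c) hb hb (hI0 c) (hI0 c') hO (by rw [← hM, ← hQ]; exact hO')
    refine ⟨e, Set.mem_univ _, ?_⟩
    change ClassGroup.mk0 (cj (R.I c) e) = c'
    rw [← R.cl c']
    symm
    rw [ClassGroup.mk0_eq_mk0_iff]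
    obtain ⟨a, d, hd, had⟩ := IsFractionRing.div_surjective (𝓞 K) t
    have hd0 : d ≠ 0 := nonZeroDivisors.ne_zero hd
    have hd0' : (d : K) ≠ 0 := by
      rw [Ne, RingOfIntegers.coe_eq_zero_iff]; exact hd0
    have had' : (a : K) / (d : K) = t := had
    have ha0 : a ≠ 0 := by
      rintro rfl
      apply ht
      rw [← had']
      simp
    refine ⟨d, a, hd0, ha0, ?_⟩
    have hcl : ∀ u : V2 k, u ∈ R.M c' → ∃ x ∈ (R.I c' : Ideal (𝓞 K)),
        (x : K) = lin (R.α c') (R.β c') u := by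
      intro u hu
      rw [hO'.lat] at hu
      exact hu
    have hcl0 : ∀ u : V2 k, u ∈ R.M c → ∃ x ∈ (R.I c : Ideal (𝓞 K)),
        (x : K) = lin (R.α c) (R.β c) u := by
      intro u hu
      rw [hO.lat] at hu
      exact hu
    ext z
    rw [Ideal.mem_span_singleton_mul, Ideal.mem_span_singleton_mul]
    constructor
    · rintro ⟨x, hx, rfl⟩
      obtain ⟨u, hu⟩ := hO'.mem x hx
      have hu' : u ∈ R.M c' := by
        rw [hO'.lat]
        exact ⟨x, hx, hu.symm⟩
      rw [hM] at hu'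
      obtain ⟨w, hw, hwu⟩ := hcl0 u hu'
      refine ⟨RingOfIntegers.mapRingEquiv e.toRingEquiv w, (mem_cj _ _ _).2 ⟨w, hw, rfl⟩, ?_⟩
      apply RingOfIntegers.ext
      have e1 : (x : K) = t * e (w : K) := by rw [← hu, he, hwu]
      change (a : K) * e (w : K) = (d : K) * (x : K)
      rw [e1, ← had']
      field_simp
    · rintro ⟨w', hw', rfl⟩
      obtain ⟨w, hw, hww⟩ := (mem_cj _ _ _).1 hw'
      obtain ⟨u, hu⟩ := hO.mem w hw
      have hu' : u ∈ R.M c := by
        rw [hO.lat]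
        exact ⟨w, hw, hu.symm⟩
      rw [← hM] at hu'
      obtain ⟨x, hx, hxu⟩ := hcl u hu'
      refine ⟨x, hx, ?_⟩
      apply RingOfIntegers.ext
      have e1 : (x : K) = t * e (w : K) := by rw [hxu, he, hu]
      change (d : K) * (x : K) = (a : K) * (w' : K)
      rw [e1, ← hww, ← had']
      field_simp
  calc {c' | R.M c' = R.M c ∧ R.Q c' = R.Q c}.ncard
      ≤ ((fun e : K ≃ₐ[k] K => ClassGroup.mk0 (cj (R.I c) e)) '' Set.univ).ncard :=
        Set.ncard_le_ncard key (Set.toFinite _)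
    _ ≤ (Set.univ : Set (K ≃ₐ[k] K)).ncard := Set.ncard_image_le
    _ = Fintype.card (K ≃ₐ[k] K) := by rw [Set.ncard_univ, Nat.card_eq_fintype_card]
    _ ≤ Module.finrank k K := AlgEquiv.card_le
    _ = 2 := h2

end Pool.Agent.H21.CM4
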